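import Pool.Agent.H23.BG.TargetsW

/-!
# Board brg_modules, row W_EY

The elements of an extension of finite fields and the irreducible polynomials.
-/

set_option autoImplicit false

open Polynomial

namespace Pool.Agent.H70.BG

section

variable {F : Type} [Field F] [Fintype F] {E : Type} [Field E] [Fintype E] [Algebra F E]

/-- a monic irreducible polynomial whose degree divides the degree of the extension splits -/
private lemma splits_of_dvd {P : F[X]} (hP : Irreducible P)
    (hd : P.natDegree ∣ Module.finrank F E) : (P.map (algebraMap F E)).Splits := by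
  have h1 : P ∣ X ^ (Nat.card F) ^ Module.finrank F E - X :=
    hP.natDegree_dvd_iff_dvd_X_pow_card_pow_sub_X.1 hd
  have h2 : (Nat.card F) ^ Module.finrank F E = Fintype.card E := by
    rw [Fintype.card_eq_nat_card]
    exact (Module.natCard_eq_pow_finrank (K := F) (V := E)).symm
  rw [h2] at h1
  have h3 : ((X ^ Fintype.card E - X : F[X]).map (algebraMap F E)).Splits :=
    (FiniteField.isSplittingField_sub E F).splits
  refine Splits.of_dvd h3 ?_ (Polynomial.map_dvd (algebraMap F E) h1)
  exact map_ne_zero (FiniteField.X_pow_card_sub_X_ne_zero F Fintype.one_lt_card)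

private lemma card_fiber [DecidableEq F[X]] {P : F[X]} (hm : P.Monic) (hP : Irreducible P)
    (hd : P.natDegree ∣ Module.finrank F E) :
    (Finset.univ.filter fun y : E => minpoly F y = P).card = P.natDegree := by
  classical
  have hsep : P.Separable := PerfectField.separable_of_irreducible hP
  have h1 := Polynomial.card_rootSet_eq_natDegree (K := E) hsep (splits_of_dvd hP hd)
  rw [← h1, ← Set.toFinset_card]
  refine congrArg Finset.card ?_
  ext y
  simp only [Finset.mem_filter, Finset.mem_univ, true_and, Set.mem_toFinset,
    Polynomial.mem_rootSet]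
  constructor
  · intro h
    refine ⟨hm.ne_zero, ?_⟩
    rw [← h]
    exact minpoly.aeval F y
  · rintro ⟨_, h⟩
    exact (minpoly.eq_of_irreducible_of_monic hP h hm).symm

end

theorem pf_W_EY : Pool.Agent.H23.BG.W_EY := by
  intro F _ _ E _ _ _ Xf
  classical
  have hset : {P : F[X] | P.Monic ∧ Irreducible P ∧ P.natDegree ∣ Module.finrank F E} =
      ((Finset.univ.image fun y : E => minpoly F y : Finset F[X]) : Set F[X]) := by
    ext P
    simp only [Set.mem_ofPred_eq, Finset.coe_image, Finset.coe_univ, Set.image_univ,
      Set.mem_range]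
    constructor
    · rintro ⟨hm, hP, hd⟩
      have hs := splits_of_dvd (E := E) hP hd
      have hdeg : (P.map (algebraMap F E)).degree ≠ 0 := by
        rw [Polynomial.degree_map]
        exact hP.degree_pos.ne'
      obtain ⟨y, hy⟩ := hs.exists_eval_eq_zero hdeg
      rw [Polynomial.eval_map_algebraMap] at hy
      exact ⟨y, (minpoly.eq_of_irreducible_of_monic hP hy hm).symm⟩
    · rintro ⟨y, rfl⟩
      have hy : IsIntegral F y := Algebra.IsIntegral.isIntegral y
      exact ⟨minpoly.monic hy, minpoly.irreducible hy, minpoly.degree_dvd hy⟩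
  unfold Pool.Agent.H23.BG.sm
  rw [hset, finsum_mem_coe_finset]
  rw [Finset.sum_comp (fun P : F[X] => Xf P ^ (Module.finrank F E / P.natDegree))
    (fun y : E => minpoly F y)]
  refine Finset.sum_congr rfl fun P hP => ?_
  rw [Finset.mem_image] at hP
  obtain ⟨y, _, rfl⟩ := hP
  have hy : IsIntegral F y := Algebra.IsIntegral.isIntegral y
  rw [card_fiber (minpoly.monic hy) (minpoly.irreducible hy) (minpoly.degree_dvd hy),
    nsmul_eq_mul]

end Pool.Agent.H70.BG
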